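import Pool.Agent.Helper16.RC.Defs

/-! Rows COS and JT: Taylor polynomials of the cosine and of the Bessel function with the exact
remainder. -/

set_option autoImplicit false

open MeasureTheory Set

namespace Pool.Agent.Helper16.RC

theorem cos_hd_pow (m : ℕ) (y : ℝ) :
    HasDerivAt (fun y : ℝ => y ^ (m + 1) / ((m + 1).factorial : ℝ)) (y ^ m / (m.factorial : ℝ)) y := by
  have h := (hasDerivAt_pow (m + 1) y).div_const ((m + 1).factorial : ℝ)
  have h0 : (m.factorial : ℝ) ≠ 0 := by exact_mod_cast m.factorial_ne_zero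
  have h1 : ((m : ℝ) + 1) ≠ 0 := by positivity
  have e : y ^ m / (m.factorial : ℝ) = ((m + 1 : ℕ) : ℝ) * y ^ (m + 1 - 1) / ((m + 1).factorial : ℝ) := by
    rw [Nat.factorial_succ, Nat.add_sub_cancel]
    push_cast
    field_simp
  rw [e]
  exact h

/-- comparison of a function and a majorant of its derivative -/
theorem cos_cmp {f f' g g' : ℝ → ℝ} (hf : ∀ x, HasDerivAt f (f' x) x)
    (hg : ∀ x, HasDerivAt g (g' x) x) (hf0 : f 0 = 0) (hg0 : g 0 = 0)
    (hb : ∀ x, 0 ≤ x → |f' x| ≤ g' x) : ∀ x, 0 ≤ x → |f x| ≤ g x := by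
  intro x hx
  have h := image_norm_le_of_norm_deriv_right_le_deriv_boundary (f := f) (f' := f') (a := 0) (b := x)
    (B := g) (B' := g') (fun y _ => (hf y).continuousAt.continuousWithinAt)
    (fun y _ => (hf y).hasDerivWithinAt) (by rw [hf0, hg0, norm_zero]) hg
    (fun y hy => by rw [Real.norm_eq_abs]; exact hb y hy.1)
  have h1 := h (right_mem_Icc.2 hx)
  rwa [Real.norm_eq_abs] at h1

theorem cos_aux (n : ℕ) : (∀ y : ℝ, 0 ≤ y →
    |Real.cos y - ∑ j ∈ Finset.range n, (-1 : ℝ) ^ j * (y ^ (2 * j) / ((2 * j).factorial : ℝ))| ≤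
      y ^ (2 * n) / ((2 * n).factorial : ℝ)) ∧ (∀ y : ℝ, 0 ≤ y →
    |Real.sin y - ∑ j ∈ Finset.range n,
      (-1 : ℝ) ^ j * (y ^ (2 * j + 1) / ((2 * j + 1).factorial : ℝ))| ≤
      y ^ (2 * n + 1) / ((2 * n + 1).factorial : ℝ)) := by
  -- from the cosine to the sine
  have step : ∀ n : ℕ, (∀ y : ℝ, 0 ≤ y →
      |Real.cos y - ∑ j ∈ Finset.range n, (-1 : ℝ) ^ j * (y ^ (2 * j) / ((2 * j).factorial : ℝ))| ≤
        y ^ (2 * n) / ((2 * n).factorial : ℝ)) → (∀ y : ℝ, 0 ≤ y →
      |Real.sin y - ∑ j ∈ Finset.range n,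
        (-1 : ℝ) ^ j * (y ^ (2 * j + 1) / ((2 * j + 1).factorial : ℝ))| ≤
        y ^ (2 * n + 1) / ((2 * n + 1).factorial : ℝ)) := by
    intro n h
    refine cos_cmp
      (f := fun y => Real.sin y - ∑ j ∈ Finset.range n,
        (-1 : ℝ) ^ j * (y ^ (2 * j + 1) / ((2 * j + 1).factorial : ℝ)))
      (f' := fun y => Real.cos y - ∑ j ∈ Finset.range n,
        (-1 : ℝ) ^ j * (y ^ (2 * j) / ((2 * j).factorial : ℝ)))
      (g := fun y => y ^ (2 * n + 1) / ((2 * n + 1).factorial : ℝ))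
      (g' := fun y => y ^ (2 * n) / ((2 * n).factorial : ℝ)) ?_ (fun x => cos_hd_pow (2 * n) x)
      ?_ ?_ h
    · intro x
      refine (Real.hasDerivAt_sin x).sub (HasDerivAt.fun_sum fun j _ => ?_)
      exact (cos_hd_pow (2 * j) x).const_mul _
    · simp
    · simp
  induction n with
  | zero =>
    have h0 : ∀ y : ℝ, 0 ≤ y →
      |Real.cos y - ∑ j ∈ Finset.range 0, (-1 : ℝ) ^ j * (y ^ (2 * j) / ((2 * j).factorial : ℝ))| ≤
        y ^ (2 * 0) / ((2 * 0).factorial : ℝ) := by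
      intro y _
      simpa using Real.abs_cos_le_one y
    exact ⟨h0, step 0 h0⟩
  | succ n ih =>
    have h1 : ∀ y : ℝ, 0 ≤ y →
      |Real.cos y - ∑ j ∈ Finset.range (n + 1),
        (-1 : ℝ) ^ j * (y ^ (2 * j) / ((2 * j).factorial : ℝ))| ≤
        y ^ (2 * (n + 1)) / ((2 * (n + 1)).factorial : ℝ) := by
      refine cos_cmp
        (f := fun y => Real.cos y - ∑ j ∈ Finset.range (n + 1),
          (-1 : ℝ) ^ j * (y ^ (2 * j) / ((2 * j).factorial : ℝ)))
        (f' := fun y => -(Real.sin y - ∑ j ∈ Finset.range n,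
          (-1 : ℝ) ^ j * (y ^ (2 * j + 1) / ((2 * j + 1).factorial : ℝ))))
        (g := fun y => y ^ (2 * (n + 1)) / ((2 * (n + 1)).factorial : ℝ))
        (g' := fun y => y ^ (2 * n + 1) / ((2 * n + 1).factorial : ℝ)) ?_
        (fun x => cos_hd_pow (2 * n + 1) x) ?_ ?_ ?_
      · intro x
        have h2 : HasDerivAt (fun y : ℝ => ∑ j ∈ Finset.range (n + 1),
            (-1 : ℝ) ^ j * (y ^ (2 * j) / ((2 * j).factorial : ℝ)))
            (∑ j ∈ Finset.range n, (-1 : ℝ) ^ (j + 1) *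
              (x ^ (2 * j + 1) / ((2 * j + 1).factorial : ℝ)) + 0) x := by
          have h3 : (fun y : ℝ => ∑ j ∈ Finset.range (n + 1),
              (-1 : ℝ) ^ j * (y ^ (2 * j) / ((2 * j).factorial : ℝ))) =
              fun y : ℝ => ∑ j ∈ Finset.range n, (-1 : ℝ) ^ (j + 1) *
                (y ^ (2 * j + 1 + 1) / ((2 * j + 1 + 1).factorial : ℝ)) + 1 := by
            funext y
            rw [Finset.sum_range_succ']
            simp [Nat.mul_add]
          rw [h3]
          refine HasDerivAt.add (HasDerivAt.fun_sum fun j _ => ?_) (hasDerivAt_const x 1)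
          exact (cos_hd_pow (2 * j + 1) x).const_mul _
        have h4 := (Real.hasDerivAt_cos x).sub h2
        have h5 : -(Real.sin x - ∑ j ∈ Finset.range n,
            (-1 : ℝ) ^ j * (x ^ (2 * j + 1) / ((2 * j + 1).factorial : ℝ))) =
            -Real.sin x - (∑ j ∈ Finset.range n, (-1 : ℝ) ^ (j + 1) *
              (x ^ (2 * j + 1) / ((2 * j + 1).factorial : ℝ)) + 0) := by
          have h6 : ∑ j ∈ Finset.range n, (-1 : ℝ) ^ (j + 1) *
              (x ^ (2 * j + 1) / ((2 * j + 1).factorial : ℝ)) =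
              -∑ j ∈ Finset.range n,
                (-1 : ℝ) ^ j * (x ^ (2 * j + 1) / ((2 * j + 1).factorial : ℝ)) := by
            rw [← Finset.sum_neg_distrib]
            refine Finset.sum_congr rfl fun j _ => ?_
            rw [pow_succ]
            ring
          rw [h6]
          ring
        rw [h5]
        exact h4
      · rw [Finset.sum_range_succ']
        simp
      · simp
      · intro x hx
        rw [abs_neg]
        exact ih.2 x hx
    exact ⟨h1, step (n + 1) h1⟩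

theorem st_COS : ST_COS := by
  intro n y
  have h := (cos_aux n).1 |y| (abs_nonneg y)
  rw [Real.cos_abs] at h
  have e : ∀ j : ℕ, |y| ^ (2 * j) = y ^ (2 * j) := fun j => by
    rw [pow_mul, pow_mul, sq_abs]
  have h2 : ∑ j ∈ Finset.range n, (-1 : ℝ) ^ j * (|y| ^ (2 * j) / ((2 * j).factorial : ℝ)) =
      ∑ j ∈ Finset.range n, (-1 : ℝ) ^ j * y ^ (2 * j) / ((2 * j).factorial : ℝ) := by
    refine Finset.sum_congr rfl fun j _ => ?_
    rw [e]
    ring
  rw [h2] at h
  exact h

/-- the mean of the even powers of the sine -/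
theorem jt_sin (m : ℕ) : ∫ θ in (0:ℝ)..(2 * Real.pi), Real.sin θ ^ (2 * m) =
    2 * Real.pi * ((2 * m).factorial / (4 ^ m * (m.factorial : ℝ) ^ 2)) := by
  induction m with
  | zero => simp
  | succ m ih =>
    have h := @integral_sin_pow (0 : ℝ) (2 * Real.pi) (2 * m)
    rw [Real.sin_zero, Real.sin_two_pi, ih] at h
    have e : 2 * (m + 1) = 2 * m + 2 := by ring
    rw [e, h]
    have h0 : (m.factorial : ℝ) ≠ 0 := by exact_mod_cast m.factorial_ne_zero
    have h1 : ((m : ℝ) + 1) ≠ 0 := by positivity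
    rw [Nat.factorial_succ (2 * m + 1), Nat.factorial_succ (2 * m), Nat.factorial_succ m]
    push_cast
    rw [zero_pow (by omega), zero_mul, zero_mul, sub_zero, zero_div, zero_add]
    field_simp
    ring

theorem st_JT : ST_JT := by
  intro n s
  have hpi : 0 < 2 * Real.pi := by positivity
  have hint : ∀ m : ℕ, ∫ θ in (0:ℝ)..(2 * Real.pi), (s * Real.sin θ) ^ (2 * m) /
      ((2 * m).factorial : ℝ) = 2 * Real.pi * ((s ^ 2 / 4) ^ m / (m.factorial : ℝ) ^ 2) := by
    intro m
    have h0 : (m.factorial : ℝ) ≠ 0 := by exact_mod_cast m.factorial_ne_zero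
    have h1 : ((2 * m).factorial : ℝ) ≠ 0 := by exact_mod_cast (2 * m).factorial_ne_zero
    have e : ∀ θ : ℝ, (s * Real.sin θ) ^ (2 * m) / ((2 * m).factorial : ℝ) =
        (s ^ (2 * m) / ((2 * m).factorial : ℝ)) * Real.sin θ ^ (2 * m) := by
      intro θ
      rw [mul_pow]
      ring
    simp_rw [e]
    rw [intervalIntegral.integral_const_mul, jt_sin, div_pow, ← pow_mul]
    field_simp
  have hii : ∀ m : ℕ, IntervalIntegrable (fun θ : ℝ => (s * Real.sin θ) ^ (2 * m) /
      ((2 * m).factorial : ℝ)) volume 0 (2 * Real.pi) := by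
    intro m
    exact Continuous.intervalIntegrable (by fun_prop) _ _
  have hcos : IntervalIntegrable (fun θ : ℝ => Real.cos (s * Real.sin θ)) volume 0
      (2 * Real.pi) := Continuous.intervalIntegrable (by fun_prop) _ _
  have hsum : ∑ j ∈ Finset.range n, (-1 : ℝ) ^ j * (s ^ 2 / 4) ^ j / (j.factorial : ℝ) ^ 2 =
      (2 * Real.pi)⁻¹ * ∫ θ in (0:ℝ)..(2 * Real.pi), ∑ j ∈ Finset.range n,
        (-1 : ℝ) ^ j * ((s * Real.sin θ) ^ (2 * j) / ((2 * j).factorial : ℝ)) := by
    rw [intervalIntegral.integral_finset_sum fun j _ => (hii j).const_mul _, Finset.mul_sum]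
    refine Finset.sum_congr rfl fun j _ => ?_
    rw [intervalIntegral.integral_const_mul, hint]
    field_simp
  have hsumi : IntervalIntegrable (fun θ : ℝ => ∑ j ∈ Finset.range n,
        (-1 : ℝ) ^ j * ((s * Real.sin θ) ^ (2 * j) / ((2 * j).factorial : ℝ))) volume 0
      (2 * Real.pi) := Continuous.intervalIntegrable (by fun_prop) _ _
  rw [hsum, J, ← mul_sub, ← intervalIntegral.integral_sub hcos hsumi, abs_mul,
    abs_of_pos (inv_pos.2 hpi)]
  have h1 : |∫ θ in (0:ℝ)..(2 * Real.pi), (Real.cos (s * Real.sin θ) - ∑ j ∈ Finset.range n,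
        (-1 : ℝ) ^ j * ((s * Real.sin θ) ^ (2 * j) / ((2 * j).factorial : ℝ)))| ≤
      ∫ θ in (0:ℝ)..(2 * Real.pi), (s * Real.sin θ) ^ (2 * n) / ((2 * n).factorial : ℝ) := by
    rw [← Real.norm_eq_abs]
    refine intervalIntegral.norm_integral_le_of_norm_le hpi.le ?_ (hii n)
    refine Filter.Eventually.of_forall fun θ _ => ?_
    rw [Real.norm_eq_abs]
    have h2 := st_COS n (s * Real.sin θ)
    have h3 : ∑ j ∈ Finset.range n, (-1 : ℝ) ^ j * ((s * Real.sin θ) ^ (2 * j) /
        ((2 * j).factorial : ℝ)) = ∑ j ∈ Finset.range n, (-1 : ℝ) ^ j *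
        (s * Real.sin θ) ^ (2 * j) / ((2 * j).factorial : ℝ) := by
      refine Finset.sum_congr rfl fun j _ => ?_
      ring
    rw [h3]
    refine h2.trans (le_of_eq ?_)
    rw [pow_mul, pow_mul, sq_abs]
  have h2 := mul_le_mul_of_nonneg_left h1 (inv_pos.2 hpi).le
  refine h2.trans (le_of_eq ?_)
  rw [hint]
  field_simp

end Pool.Agent.Helper16.RC
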